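import Pool.Agent.Lib.P901b45d.Base

/-!
High points (MP_901b45_co): if some integral `u` with `|u| ≤ h` has more entries `1` than `h A` for
every light set `A` (`h A < h (G \ A)`), then a solution exists.
-/

set_option autoImplicit false

namespace Pool.Agent.P901b45h

open Finset Pool.Agent.P901b45e Pool.Agent.P901b45d

variable {α : Type*} [DecidableEq α] {G : Finset α} {h : Finset α → ℤ}

theorem up_union (hh : Sub G h) {B : Finset α} (hB : B ⊆ G) :
    ∀ C : Finset α, C ⊆ G → h (B ∪ C) ≤ h B + C.card := by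
  intro C
  induction C using Finset.induction_on with
  | empty => intro _; simp
  | insert e C he ih =>
    intro hC
    have hC' : C ⊆ G := (subset_insert _ _).trans hC
    have h1 := ih hC'
    have h2 := hh.up (B ∪ C) (union_subset hB hC') e (hC (mem_insert_self _ _))
    rw [union_insert, card_insert_of_notMem he]
    push_cast
    linarith

theorem down_union (hh : Sub G h) {B : Finset α} (hB : B ⊆ G) :
    ∀ C : Finset α, C ⊆ G → h B ≤ h (B ∪ C) + C.card := by
  intro C
  induction C using Finset.induction_on with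
  | empty => intro _; simp
  | insert e C he ih =>
    intro hC
    have hC' : C ⊆ G := (subset_insert _ _).trans hC
    have h1 := ih hC'
    have h2 := hh.down (B ∪ C) (union_subset hB hC') e (hC (mem_insert_self _ _))
    rw [union_insert, card_insert_of_notMem he]
    push_cast
    linarith

/-- the elements of `G` with value `c` -/
def lev (G : Finset α) (x : α → ℤ) (c : ℤ) : Finset α := G.filter (fun e => x e = c)

omit [DecidableEq α] in
theorem sum_lev (G : Finset α) (x : α → ℤ) (c : ℤ) :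
    ∑ e ∈ lev G x c, x e = c * (lev G x c).card := by
  have h1 : ∑ e ∈ lev G x c, x e = ∑ e ∈ lev G x c, c :=
    Finset.sum_congr rfl (fun e he => (mem_filter.1 he).2)
  rw [h1, sum_const, nsmul_eq_mul, mul_comm]

theorem val_of (hh : Sub G h) {x : α → ℤ}
    (hle : ∀ A ⊆ G, ∑ e ∈ A, x e ≤ h A) (hneg : ∀ A ⊆ G, -∑ e ∈ A, x e ≤ h A) {e : α} (he : e ∈ G) :
    x e = 1 ∨ x e = -1 ∨ x e = 0 := by
  have h1 := hle {e} (singleton_subset_iff.2 he)
  have h2 := hneg {e} (singleton_subset_iff.2 he)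
  have h3 := hh.up ∅ (empty_subset _) e he
  rw [hh.empty] at h3
  have h4 : h {e} ≤ 1 := by simpa using h3
  rw [sum_singleton] at h1 h2
  omega

theorem card_lev (hh : Sub G h) (hG : h G = 0) {x : α → ℤ}
    (hle : ∀ A ⊆ G, ∑ e ∈ A, x e ≤ h A) (hneg : ∀ A ⊆ G, -∑ e ∈ A, x e ≤ h A) :
    (lev G x 1).card = (lev G x (-1)).card := by
  have h1 := hle G (Subset.refl _)
  have h2 := hneg G (Subset.refl _)
  rw [hG] at h1 h2
  have h3 : ∑ e ∈ G, x e = ∑ e ∈ lev G x 1, x e + ∑ e ∈ lev G x (-1), x e := by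
    rw [← sum_union]
    · symm
      apply Finset.sum_subset
      · exact union_subset (filter_subset _ _) (filter_subset _ _)
      · intro e he hne
        rcases val_of hh hle hneg he with h4 | h4 | h4
        · exact absurd (mem_union_left _ (mem_filter.2 ⟨he, h4⟩)) hne
        · exact absurd (mem_union_right _ (mem_filter.2 ⟨he, h4⟩)) hne
        · exact h4
    · rw [disjoint_left]
      intro e h5 h6
      have h7 := (mem_filter.1 h5).2
      have h8 := (mem_filter.1 h6).2
      omega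
  rw [sum_lev, sum_lev] at h3
  omega

/-- a set `A` with `-x(A) = h(A)` can be normalised to contain all `-1` and no `1` -/
theorem norm_tight (hh : Sub G h) (hG : h G = 0) {x : α → ℤ}
    (hle : ∀ A ⊆ G, ∑ e ∈ A, x e ≤ h A) (hneg : ∀ A ⊆ G, -∑ e ∈ A, x e ≤ h A)
    {A : Finset α} (hA : A ⊆ G) (ht : -∑ e ∈ A, x e = h A) :
    h ((A ∪ lev G x (-1)) \ lev G x 1) = (lev G x 1).card ∧
    ∑ e ∈ (A ∪ lev G x (-1)) \ lev G x 1, x e = -((lev G x 1).card : ℤ) := by
  have hc := card_lev hh hG hle hneg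
  set P := lev G x 1 with hP
  set N := lev G x (-1) with hN
  have hPG : P ⊆ G := filter_subset _ _
  have hNG : N ⊆ G := filter_subset _ _
  have e1 : A ∪ (N \ A) = A ∪ N := by ext e; simp only [mem_union, mem_sdiff]; tauto
  have hdis : Disjoint N P := by
    rw [disjoint_left]
    intro e h5 h6
    have h7 := (mem_filter.1 h5).2
    have h8 := (mem_filter.1 h6).2
    omega
  have s1 : ∑ e ∈ A ∪ N, x e = ∑ e ∈ A, x e - (N \ A).card := by
    rw [← e1, sum_union disjoint_sdiff]
    have : ∑ e ∈ N \ A, x e = ∑ e ∈ N \ A, (-1 : ℤ) :=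
      Finset.sum_congr rfl (fun e he => (mem_filter.1 (mem_sdiff.1 he).1).2)
    rw [this, sum_const, nsmul_eq_mul]
    ring
  have u1 : h (A ∪ N) ≤ h A + (N \ A).card := by
    have := up_union hh hA (N \ A) (sdiff_subset.trans hNG)
    rwa [e1] at this
  set A1 := A ∪ N with hA1
  have hA1G : A1 ⊆ G := union_subset hA hNG
  have e2 : (A1 \ P) ∪ (A1 ∩ P) = A1 := by ext e; simp only [mem_union, mem_sdiff, mem_inter]; tauto
  have s2 : ∑ e ∈ A1 \ P, x e = ∑ e ∈ A1, x e - (A1 ∩ P).card := by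
    have h1 : ∑ e ∈ A1, x e = ∑ e ∈ A1 \ P, x e + ∑ e ∈ A1 ∩ P, x e := by
      rw [← sum_union, e2]
      rw [disjoint_left]
      intro e h5 h6
      exact (mem_sdiff.1 h5).2 (mem_inter.1 h6).2
    have h2 : ∑ e ∈ A1 ∩ P, x e = ∑ e ∈ A1 ∩ P, (1 : ℤ) :=
      Finset.sum_congr rfl (fun e he => (mem_filter.1 (mem_inter.1 he).2).2)
    rw [h2, sum_const, nsmul_eq_mul] at h1
    linarith
  have u2 : h (A1 \ P) ≤ h A1 + (A1 ∩ P).card := by
    have := down_union hh (sdiff_subset.trans hA1G : A1 \ P ⊆ G) (A1 ∩ P)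
      (inter_subset_left.trans hA1G)
    rwa [e2] at this
  have u3 := hneg (A1 \ P) (sdiff_subset.trans hA1G)
  have s3 : ∑ e ∈ A1 \ P, x e = -(P.card : ℤ) := by
    have h1 : ∑ e ∈ A1 \ P, x e = ∑ e ∈ N, x e := by
      symm
      apply Finset.sum_subset
      · intro e he
        exact mem_sdiff.2 ⟨mem_union_right _ he, fun h2 => (disjoint_left.1 hdis) he h2⟩
      · intro e he hne
        have h2 := mem_sdiff.1 he
        rcases val_of hh hle hneg (hA1G h2.1) with h4 | h4 | h4
        · exact absurd (mem_filter.2 ⟨hA1G h2.1, h4⟩) h2.2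
        · exact absurd (mem_filter.2 ⟨hA1G h2.1, h4⟩) hne
        · exact h4
    rw [h1, hN, sum_lev, ← hN, ← hc]
    ring
  refine ⟨?_, s3⟩
  have s4 := s3
  rw [s2, s1] at s4
  rw [s3] at u3
  omega

/-- the step: more ones or separated zeros -/
theorem step (hh : Sub G h) (hG : h G = 0) {x : α → ℤ}
    (hle : ∀ A ⊆ G, ∑ e ∈ A, x e ≤ h A) (hneg : ∀ A ⊆ G, -∑ e ∈ A, x e ≤ h A)
    (hlight : ∀ A ⊆ G, h A < h (G \ A) → h A < ((lev G x 1).card : ℤ))
    {i j : α} (hi : i ∈ G) (hij : i ≠ j) (xi : x i = 0) (xj : x j = 0)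
    (hsep : ¬ ∃ X ⊆ G, ∑ e ∈ X, x e = h X ∧ ((i ∈ X ∧ j ∉ X) ∨ (j ∈ X ∧ i ∉ X))) :
    ∃ y : α → ℤ, (∀ A ⊆ G, ∑ e ∈ A, y e ≤ h A) ∧ (∀ A ⊆ G, -∑ e ∈ A, y e ≤ h A) ∧
      (lev G x 1).card < (lev G y 1).card := by
  have key : ∀ A ⊆ G, j ∈ A → i ∉ A → -∑ e ∈ A, x e ≠ h A := by
    intro A hA hjA hiA ht
    obtain ⟨k1, k2⟩ := norm_tight hh hG hle hneg hA ht
    set A' := (A ∪ lev G x (-1)) \ lev G x 1 with hA'
    have hA'G : A' ⊆ G := sdiff_subset.trans (union_subset hA (filter_subset _ _))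
    have hS := hlight A' hA'G
    have hSle : h (G \ A') ≤ h A' := by
      by_contra hcon
      have := hS (not_le.1 hcon)
      omega
    have hsum : ∑ e ∈ G \ A', x e = (lev G x 1).card := by
      have h1 : ∑ e ∈ G \ A', x e + ∑ e ∈ A', x e = ∑ e ∈ G, x e := Finset.sum_sdiff hA'G
      have h2 := hle G (Subset.refl _)
      have h3 := hneg G (Subset.refl _)
      rw [hG] at h2 h3
      omega
    have hSt : ∑ e ∈ G \ A', x e = h (G \ A') := by
      have := hle (G \ A') sdiff_subset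
      omega
    apply hsep
    refine ⟨G \ A', sdiff_subset, hSt, Or.inl ⟨?_, ?_⟩⟩
    · refine mem_sdiff.2 ⟨hi, ?_⟩
      intro h4
      rcases mem_union.1 (mem_sdiff.1 h4).1 with h5 | h5
      · exact hiA h5
      · have := (mem_filter.1 h5).2
        omega
    · intro h4
      apply (mem_sdiff.1 h4).2
      refine mem_sdiff.2 ⟨mem_union_left _ hjA, ?_⟩
      intro h5
      have := (mem_filter.1 h5).2
      omega
  refine ⟨fun e => x e + root i j e, ?_, ?_, ?_⟩
  · intro A hA
    rw [sum_add_distrib, sum_root]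
    have h1 := hle A hA
    by_cases hiA : i ∈ A <;> by_cases hjA : j ∈ A <;> simp only [hiA, hjA, if_true, if_false]
    · linarith
    · have : ∑ e ∈ A, x e ≠ h A := fun h2 => hsep ⟨A, hA, h2, Or.inl ⟨hiA, hjA⟩⟩
      omega
    · linarith
    · linarith
  · intro A hA
    rw [sum_add_distrib, sum_root]
    have h1 := hneg A hA
    by_cases hiA : i ∈ A <;> by_cases hjA : j ∈ A <;> simp only [hiA, hjA, if_true, if_false]
    · linarith
    · linarith
    · have := key A hA hjA hiA
      omega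
    · linarith
  · apply card_lt_card
    rw [ssubset_iff_of_subset]
    · refine ⟨i, mem_filter.2 ⟨hi, ?_⟩, ?_⟩
      · simp [root, xi, hij]
      · intro h1
        have := (mem_filter.1 h1).2
        omega
    · intro e he
      obtain ⟨h1, h2⟩ := mem_filter.1 he
      have hei : e ≠ i := fun h3 => by rw [h3] at h2; omega
      have hej : e ≠ j := fun h3 => by rw [h3] at h2; omega
      refine mem_filter.2 ⟨h1, ?_⟩
      simp [root, hei, hej, h2]

/-- HIGH POINT: some integral `u` with `|u| ≤ h` has more ones than `h A` for every light `A` -/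
theorem high_sol (hh : Sub G h) (hG : h G = 0) {u : α → ℤ}
    (hu : ∀ A ⊆ G, ∑ e ∈ A, u e ≤ h A) (hu' : ∀ A ⊆ G, -∑ e ∈ A, u e ≤ h A)
    (hlight : ∀ A ⊆ G, h A < h (G \ A) → h A < ((G.filter (fun e => u e = 1)).card : ℤ)) :
    ∃ x, Sol G h x := by
  suffices H : ∀ m : ℕ, ∀ u : α → ℤ, G.card - (lev G u 1).card = m →
      (∀ A ⊆ G, ∑ e ∈ A, u e ≤ h A) → (∀ A ⊆ G, -∑ e ∈ A, u e ≤ h A) →
      (∀ A ⊆ G, h A < h (G \ A) → h A < ((lev G u 1).card : ℤ)) → ∃ x, Sol G h x from
    H _ u rfl hu hu' hlight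
  intro m
  induction m using Nat.strong_induction_on with
  | _ m ih =>
    intro u hm hle hneg hl
    by_cases hs : ∀ i ∈ G, ∀ j ∈ G, i ≠ j → u i = 0 → u j = 0 → ∃ X ⊆ G, ∑ e ∈ X, u e = h X ∧
        ((i ∈ X ∧ j ∉ X) ∨ (j ∈ X ∧ i ∉ X))
    · exact ⟨u, sol_of hh hG hle hneg (fun e he => val_of hh hle hneg he) hs⟩
    · simp only [not_forall] at hs
      obtain ⟨i, hi, j, hj, hij, ui, uj, hsep'⟩ := hs
      obtain ⟨y, y1, y2, y3⟩ := step hh hG hle hneg hl hi hij ui uj hsep'
      have hyc : (lev G y 1).card ≤ G.card := card_le_card (filter_subset _ _)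
      refine ih (G.card - (lev G y 1).card) (by omega) y rfl y1 y2 ?_
      intro A hA hlt
      have := hl A hA hlt
      have : ((lev G u 1).card : ℤ) < (lev G y 1).card := by exact_mod_cast y3
      omega

/-- `q` has a high point on `I`: an integral vector `u` such that `u` and `2 - u` are below `q`,
with more entries `2` than `q S - |S|` for every `S ⊆ I` with
`q S - |S| < q (I \ S) - |I \ S|` -/
def HighPoint {α : Type*} [DecidableEq α] (I : Finset α) (q : Finset α → ℤ) : Prop :=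
  ∃ u : α → ℤ, (∀ S ⊆ I, ∑ e ∈ S, u e ≤ q S ∧ ∑ e ∈ S, (2 - u e) ≤ q S) ∧
    ∀ S ⊆ I, q S - S.card < q (I \ S) - (I \ S).card →
      q S - S.card < ((I.filter (fun e => u e = 2)).card : ℤ)

theorem HighPoint.congr {I : Finset α} {q q' : Finset α → ℤ} (hq : ∀ S ⊆ I, q S = q' S)
    (hp : HighPoint I q) : HighPoint I q' := by
  obtain ⟨u, h1, h2⟩ := hp
  refine ⟨u, fun S hS => ?_, fun S hS hlt => ?_⟩
  · rw [← hq S hS]
    exact h1 S hS
  · rw [← hq S hS, ← hq (I \ S) sdiff_subset] at hlt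
    rw [← hq S hS]
    exact h2 S hS hlt

theorem sol_of_high (hh : Sub G h) (hG : h G = 0)
    (hp : HighPoint G (fun S => h S + S.card)) : ∃ x, Sol G h x := by
  obtain ⟨u, h1, h2⟩ := hp
  have h3 : ∀ S : Finset α, ∑ e ∈ S, (u e - 1) = ∑ e ∈ S, u e - S.card := by
    intro S
    rw [sum_sub_distrib, sum_const, nsmul_eq_mul, mul_one]
  have h4 : ∀ S : Finset α, ∑ e ∈ S, (2 - u e) = 2 * S.card - ∑ e ∈ S, u e := by
    intro S
    rw [sum_sub_distrib, sum_const, nsmul_eq_mul, mul_comm]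
  refine high_sol (u := fun e => u e - 1) hh hG ?_ ?_ ?_
  · intro A hA
    have h5 := (h1 A hA).1
    rw [h3]
    linarith
  · intro A hA
    have h5 := (h1 A hA).2
    rw [h4] at h5
    rw [h3]
    linarith
  · intro A hA hlt
    have h5 := h2 A hA (by simpa using hlt)
    have h6 : G.filter (fun e => u e - 1 = 1) = G.filter (fun e => u e = 2) := by
      apply filter_congr
      intro e _
      constructor <;> intro h7 <;> linarith
    rw [h6]
    simpa using h5

end Pool.Agent.P901b45h
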